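import Pool.Agent.Lib.helper22.Conv

namespace Pool.Agent.Results.MP_0f3a14_an.Counter

open Filter Topology OnePoint Metric Pool.Agent.Lib.helper22 Weak Conv

variable {X : Type} [NormedAddCommGroup X] [NormedSpace ℝ X]

def Slice (S : Set X) : Prop :=
  ∃ (f : X →L[ℝ] ℝ) (α : ℝ), f ≠ 0 ∧ 0 < α ∧ S = {y | ‖y‖ ≤ 1 ∧ ‖f‖ - α < f y}

def Ccs (C : Set X) : Prop :=
  ∃ (n : ℕ) (S : Fin n → Set X) (l : Fin n → ℝ), (∀ i, Slice (S i)) ∧ (∀ i, 0 < l i) ∧
    ∑ i, l i = 1 ∧ C = {z | ∃ y : Fin n → X, (∀ i, y i ∈ S i) ∧ z = ∑ i, l i • y i}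

def RelWeakOpen (W : Set X) : Prop :=
  ∃ U : Set (WeakSpace ℝ X), IsOpen U ∧ W = {y | ‖y‖ ≤ 1 ∧ toWeakSpace ℝ X y ∈ U}

def Far (x : X) (C : Set X) : Prop := IsLUB ((fun y => ‖x - y‖) '' C) 2

theorem result : ∃ (X : Type) (_ : NormedAddCommGroup X) (_ : NormedSpace ℝ X)
    (_ : CompleteSpace X) (x : X), ‖x‖ = 1 ∧ x ∈ (closedBall (0 : X) 1).extremePoints ℝ ∧
    (∀ S, Slice S → x ∈ S → Far x S) ∧ ¬ (∀ C, Ccs C → x ∈ C → Far x C) ∧
    ¬ ∀ W, RelWeakOpen W → x ∈ W → Far x W := by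
  let σ (k : K) : ℝ := k.elim 1 fun n => (-1) ^ n
  have hσ : ∀ k, |σ k| = 1 := OnePoint.rec abs_one fun n => abs_neg_one_pow n
  let v (k : K) : c × c →L[ℝ] ℝ := ev k ∘L .fst ℝ c c
  let w (k : K) : c × c →L[ℝ] ℝ := ev k ∘L .snd ℝ c c
  let P (f q : c) (r : ℝ) (k : K) := |f k| ≤ r ∧ |q k| ≤ r ∧ |q ∞ + σ k * (f k - f ∞)| ≤ r ∧
    |f ∞ + ε k * q k| ≤ r ∧ |f ∞ - ε k * q k| ≤ r
  have hP : ∀ f q k, P f q (3 * ‖(f, q)‖) k := fun f q k => by
    have a1 := (co f k).trans (norm_fst_le (f, q))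
    have a2 := (co f ∞).trans (norm_fst_le (f, q))
    have a3 := (co q k).trans (norm_snd_le (f, q))
    have a4 := (co q ∞).trans (norm_snd_le (f, q))
    have a5 : |σ k * (f k - f ∞)| ≤ |f k| + |f ∞| := by
      rw [abs_mul, hσ, one_mul]; exact abs_sub _ _
    have a6 : |ε k * q k| ≤ |q k| := by
      rw [abs_mul, abs_of_nonneg (ε_bd k).1]
      exact mul_le_of_le_one_left (abs_nonneg _) (ε_bd k).2
    have a7 := norm_nonneg (f, q)
    exact ⟨by linarith, by linarith, (abs_add_le _ _).trans (by linarith),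
      (abs_add_le _ _).trans (by linarith), (abs_sub _ _).trans (by linarith)⟩
  let A (k : K) := (v k).prod ((w k).prod ((w ∞ + σ k • (v k - v ∞)).prod
    ((v ∞ + ε k • w k).prod (v ∞ - ε k • w k))))
  have hA : ∀ f q r k, ‖A k (f, q)‖ ≤ r ↔ P f q r k := fun f q r k =>
    norm_prod_le_iff.trans (and_congr_right' (norm_prod_le_iff.trans (and_congr_right'
      (norm_prod_le_iff.trans (and_congr_right' norm_prod_le_iff)))))
  obtain ⟨X, i1, i2, i3, e, he⟩ := supnorm A 3 1 one_pos (fun k z => (hA _ _ _ k).2 (hP _ _ k))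
    (fun z r h => (one_mul r).symm ▸ norm_prod_le_iff.2 ⟨nle _ fun k => ((hA _ _ _ k).1 (h k)).1,
      nle _ fun k => ((hA _ _ _ k).1 (h k)).2.1⟩)
  replace he : ∀ f q r, ‖e (f, q)‖ ≤ r ↔ ∀ k, P f q r k := fun f q r =>
    (he _ r).trans (forall_congr' (hA f q r))
  have lo : ∀ f q k, |f k| ≤ ‖e (f, q)‖ := fun f q k => ((he f q _).1 le_rfl k).1
  have n1 : ‖e (1, 0)‖ = 1 := le_antisymm ((he _ _ _).2 fun k => by simp [P])
    (by simpa using lo 1 0 ∞)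
  let Φ : X →L[ℝ] ℝ × ℝ := (v ∞).prod (w ∞) ∘L e.symm.toContinuousLinearMap
  have key : ∀ z, ‖z‖ ≤ 1 → ‖Φ (z - e (1, 0))‖ < 1 / 4 → ‖e (1, 0) - z‖ ≤ 3 / 2 := by
    intro z h1 h2
    obtain ⟨⟨f, q⟩, rfl⟩ := e.surjective z
    rw [← map_sub] at h2 ⊢
    replace h2 : ‖(v ∞).prod (w ∞) (e.symm (e _))‖ < 1 / 4 := h2
    rw [e.symm_apply_apply] at h2
    obtain ⟨b1, b2⟩ : |f ∞ - 1| ≤ 1 / 4 ∧ |q ∞ - 0| ≤ 1 / 4 := norm_prod_le_iff.1 h2.le
    refine (he _ _ _).2 fun k => ?_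
    obtain ⟨a1, a2, a3, a4, a5⟩ := (he _ _ _).1 h1 k
    have a6 : |f k - f ∞| ≤ 5 / 4 := by
      rw [← one_mul |_|, ← hσ k, ← abs_mul]
      rw [abs_le] at *
      constructor <;> linarith [a3.1, a3.2, b2.1, b2.2]
    simp only [P, ContinuousMap.sub_apply, ContinuousMap.one_apply, ContinuousMap.zero_apply,
      abs_le] at *
    refine ⟨⟨?_, ?_⟩, ⟨?_, ?_⟩, ⟨?_, ?_⟩, ⟨?_, ?_⟩, ?_, ?_⟩ <;>
      linarith [a1.1, a1.2, a2.1, a2.2, a3.1, a3.2, a4.1, a4.2, a5.1, a5.2, a6.1, a6.2, b1.1, b1.2]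
  refine ⟨X, i1, i2, i3, e (1, 0), n1, ⟨mem_closedBall_zero_iff.2 n1.le, ?_⟩, ?_, fun h => ?_,
    fun h => ?_⟩
  · rintro y hy z hz ⟨a, b, ha, hb, hab, h⟩
    obtain ⟨⟨f, q⟩, rfl⟩ := e.surjective y
    obtain ⟨⟨g, r⟩, rfl⟩ := e.surjective z
    rw [← _root_.map_smul, ← _root_.map_smul, ← map_add, e.injective.eq_iff] at h
    have h1 := (he _ _ _).1 (mem_closedBall_zero_iff.1 hy)
    have h2 := (he _ _ _).1 (mem_closedBall_zero_iff.1 hz)
    have h3 : ∀ k, f k = 1 := fun k => by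
      have : a * f k + b * g k = 1 := congrArg (·.1 k) h
      nlinarith [(abs_le.1 (h1 k).1).2, (abs_le.1 (h2 k).1).2]
    have h4 : ∀ n : ℕ, q n = 0 := fun n => by
      have a1 := (abs_le.1 (h1 n).2.2.2.1).2
      have a2 := (abs_le.1 (h1 n).2.2.2.2).2
      rw [h3] at a1 a2
      exact (mul_eq_zero.1 (by linarith)).resolve_left (ε_pos n).ne'
    have h5 : q ∞ = 0 := tendsto_nhds_unique (lim q) (by simp [h4])
    rw [show f = 1 from ContinuousMap.ext h3, show q = 0 from ContinuousMap.ext (OnePoint.rec h5 h4)]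
  · rintro _ ⟨g, α, -, -, rfl⟩ hx
    refine ⟨?_, fun b hb => le_of_forall_pos_le_add fun η hη => ?_⟩
    · rintro _ ⟨y, hy, rfl⟩
      linarith [norm_sub_le (e (1, 0)) y, hy.1]
    have t1 := ((lim ε).const_add 1).mul_const (‖g‖ - α)
    rw [ε_inf, add_zero, one_mul] at t1
    obtain ⟨m, m1, m2⟩ := ((t1.eventually (gt_mem_nhds hx.2)).and
      ((lim ε).eventually (gt_mem_nhds hη))).exists
    let q : c := continuousMapMkNat (fun n => if m ≤ n then 1 else 0) 1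
      (tendsto_const_nhds.congr' ((eventually_ge_atTop m).mono fun _ h => (if_pos h).symm))
    have q1 : ∀ k, |q k| ≤ 1 ∧ |ε k * q k| ≤ ε m := OnePoint.rec
      ⟨abs_one.le, by simpa [ε_inf] using (ε_pos m).le⟩ fun n => by
        rw [show q n = if m ≤ n then 1 else 0 from rfl]
        split_ifs with h
        · refine ⟨abs_one.le, ?_⟩
          rw [mul_one, abs_of_pos (ε_pos n)]
          exact Nat.one_div_le_one_div h
        · simpa using (ε_pos m).le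
    obtain ⟨N, hN⟩ := eventually_atTop.1 ((wn (e.toContinuousLinearMap ∘L .inl ℝ c c) (fun _ => -2) 2
      (fun _ => by simp) (e (1, 0)) g).eventually (lt_mem_nhds m1))
    obtain ⟨j, j1, j2⟩ : ∃ j ≥ N, 0 ≤ σ j * g (e (0, q)) := by
      rcases le_total 0 (g (e (0, q))) with c | c
      · exact ⟨2 * N, by omega, by simpa [σ] using c⟩
      · exact ⟨2 * N + 1, by omega, by simpa [σ, pow_succ] using c⟩
    have p := ε_pos m
    have p1 : 0 < (1 + ε m)⁻¹ := by positivity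
    have a1 : ‖e (1 + (-2 : ℝ) • u j, σ j • q)‖ ≤ 1 + ε m := (he _ _ _).2 fun k => by
      have b1 := q1 k
      have b2 : |ε k * (σ j * q k)| ≤ ε m := by
        rw [mul_left_comm, abs_mul, hσ, one_mul]; exact b1.2
      have b3 : q ∞ = 1 := rfl
      simp only [P, ContinuousMap.add_apply, ContinuousMap.one_apply, ContinuousMap.smul_apply,
        smul_eq_mul, u_inf, mul_zero, add_zero, b3, mul_one]
      refine ⟨?_, by rw [abs_mul, hσ]; linarith [b1.1], ?_, (abs_add_le _ _).trans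
        (by rw [abs_one]; linarith), (abs_sub _ _).trans (by rw [abs_one]; linarith)⟩ <;> rcases eq_or_ne k j with rfl | c
      · rw [u_self]; norm_num; linarith
      · rw [u_ne c]; norm_num; linarith
      · rw [u_self, show σ j + σ j * (1 + -2 * 1 - 1) = -σ j by ring, abs_neg, hσ]; linarith
      · rw [u_ne c]; simpa [hσ] using p.le
    have a2 : (1 + ε m) * (‖g‖ - α) < g (e (1 + (-2 : ℝ) • u j, σ j • q)) := by
      rw [show ((1 + (-2 : ℝ) • u j, σ j • q) : c × c) = (1, 0) + ((-2 : ℝ) • u j, 0) +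
        σ j • (0, q) by simp, map_add e, map_add g, map_add e, _root_.map_smul e, _root_.map_smul g]
      exact (hN j j1).trans_le (le_add_of_nonneg_right j2)
    have a3 := hb ⟨(1 + ε m)⁻¹ • e (1 + (-2 : ℝ) • u j, σ j • q), ⟨by
      rw [norm_smul, Real.norm_of_nonneg p1.le, inv_mul_le_iff₀ (by positivity), mul_one]
      exact a1, by
      rw [_root_.map_smul, smul_eq_mul, lt_inv_mul_iff₀ (by positivity)]
      exact a2⟩, rfl⟩
    beta_reduce at a3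
    rw [← _root_.map_smul, ← map_sub, Prod.smul_mk, Prod.mk_sub_mk] at a3
    have a4 := (le_abs_self _).trans ((lo _ _ j).trans a3)
    simp only [ContinuousMap.add_apply, ContinuousMap.one_apply, ContinuousMap.smul_apply,
      ContinuousMap.sub_apply, smul_eq_mul, u_self] at a4
    have a5 : 1 - ε m ≤ (1 + ε m)⁻¹ := by
      rw [← mul_one (1 + ε m)⁻¹, le_inv_mul_iff₀ (by positivity)]; nlinarith
    linarith
  · obtain ⟨z, z1, z2, z3⟩ := near (𝕜 := ℝ) _ n1.le (fun n g η hn hη ε hε => by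
      have a : ∀ j, ∃ S, Slice S ∧ e (1, 0) ∈ S ∧
          ∀ z ∈ S, ‖z‖ ≤ 1 ∧ g j (e (1, 0)) - η < g j z := fun j => by
        rcases eq_or_ne (g j) 0 with c | c
        · obtain ⟨f, f1, f2⟩ := exists_dual_vector ℝ (e (1, 0)) (by simp [n1])
          exact ⟨_, ⟨f, 1, norm_ne_zero_iff.1 (by simp [f1]), one_pos, rfl⟩,
            ⟨n1.le, by simp [f1, f2, n1]⟩, fun z hz => ⟨hz.1, by simpa [c] using hη⟩⟩
        · have q := (le_abs_self _).trans ((g j).unit_le_opNorm _ n1.le)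
          exact ⟨_, ⟨g j, ‖g j‖ - g j (e (1, 0)) + η, c, by linarith, rfl⟩, ⟨n1.le, by linarith⟩,
            fun z hz => ⟨hz.1, by linarith [hz.2]⟩⟩
      choose S s1 s2 s3 using a
      have l1 : ∑ _i : Fin n, (1 / n : ℝ) = 1 := by simp [hn.ne']
      obtain ⟨_, ⟨_, ⟨y, hy, rfl⟩, rfl⟩, b1, -⟩ := (h _ ⟨n, S, fun _ => 1 / n, s1,
        fun _ => by positivity, l1, rfl⟩ ⟨fun _ => _, s2, by
          rw [← Finset.sum_smul, l1, one_smul]⟩).exists_between (sub_lt_self 2 hε)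
      exact ⟨y, fun j => s3 j _ (hy j), b1⟩) Φ (η := 1 / 4) (ε := 1 / 2) (by norm_num) (by norm_num)
    linarith [key z z1 z2]
  · have c1 := wcont (ContinuousLinearMap.fst ℝ ℝ ℝ ∘L Φ)
    have c2 := wcont (ContinuousLinearMap.snd ℝ ℝ ℝ ∘L Φ)
    have : (2 : ℝ) ≤ 3 / 2 := (h _ ⟨{z | ‖Φ ((toWeakSpace ℝ X).symm z) - Φ (e (1, 0))‖ < 1 / 4}, isOpen_lt
      ((c1.prodMk c2).sub continuous_const).norm continuous_const, rfl⟩ ⟨n1.le, by simp⟩).2 (by
        rintro _ ⟨z, ⟨z1, z2⟩, rfl⟩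
        exact key z z1 (by rw [map_sub]; exact z2))
    linarith

end Pool.Agent.Results.MP_0f3a14_an.Counter
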